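import Pool.Agent.Helper60.FF.DefsB

/-!
# RDU: uniqueness and existence of reductions
-/

set_option autoImplicit false

namespace Pool.Agent.Helper60.FF

open Polynomial

section

variable {p : ℕ} [hp : Fact p.Prime]

theorem rdu_sum (f : ℕ → ℂ_[p]) (g : ℕ → RF p) (x : ℂ_[p]) (hx : ‖x‖ ≤ 1)
    (hf : ∀ j, ‖f j‖ ≤ 1) (hg : ∀ j, res (f j) = g j) (n : ℕ) :
    ‖∑ i ∈ Finset.range n, f i * x ^ i‖ ≤ 1 ∧
      res (∑ i ∈ Finset.range n, f i * x ^ i) = ∑ i ∈ Finset.range n, g i * res x ^ i := by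
  induction n with
  | zero => simp [res_zero]
  | succ n ih =>
    obtain ⟨h1, h2⟩ := ih
    have h3 : ‖x ^ n‖ ≤ 1 := by
      rw [norm_pow]; exact pow_le_one₀ (norm_nonneg x) hx
    have h4 : ‖f n * x ^ n‖ ≤ 1 := by
      rw [norm_mul]; exact mul_le_one₀ (hf n) (norm_nonneg _) h3
    rw [Finset.sum_range_succ, Finset.sum_range_succ]
    refine ⟨(OO p).add_mem _ _ h1 h4, ?_⟩
    rw [res_add h1 h4, h2, res_mul (hf n) h3, hg n, res_pow hx]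

theorem rdu_eval (P : Polynomial ℂ_[p]) (φ : Polynomial (RF p)) (hP : ∀ j, ‖P.coeff j‖ ≤ 1)
    (hφ : ∀ j, res (P.coeff j) = φ.coeff j) (x : ℂ_[p]) (hx : ‖x‖ ≤ 1) :
    ‖P.eval x‖ ≤ 1 ∧ res (P.eval x) = φ.eval (res x) := by
  have h1 : P.natDegree < max P.natDegree φ.natDegree + 1 := by omega
  have h2 : φ.natDegree < max P.natDegree φ.natDegree + 1 := by omega
  rw [Polynomial.eval_eq_sum_range' h1, Polynomial.eval_eq_sum_range' h2]
  exact rdu_sum _ _ x hx hP hφ _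

theorem rdu_res_div {a b : ℂ_[p]} (ha : ‖a‖ = 1) (hb : ‖b‖ ≤ 1) :
    ‖b / a‖ ≤ 1 ∧ res (b / a) = res b / res a := by
  have h1 : ‖b / a‖ ≤ 1 := by rw [norm_div, ha, div_one]; exact hb
  have ha0 : a ≠ 0 := by
    intro h
    rw [h, norm_zero] at ha
    exact zero_ne_one ha
  have h2 : res a ≠ 0 := (norm_eq_one_iff ha.le).1 ha
  refine ⟨h1, ?_⟩
  rw [eq_div_iff h2, ← res_mul h1 ha.le, div_mul_cancel₀ _ ha0]

theorem rdu_exists (χ : Polynomial ℂ_[p]) (h : χ ≠ 0) :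
    ∃ φ, Red χ φ ∧ φ.natDegree ≤ χ.natDegree := by
  obtain ⟨j0, hj0, hmax⟩ := Finset.exists_max_image χ.support (fun j => ‖χ.coeff j‖)
    (Polynomial.support_nonempty.2 h)
  have hc0 : χ.coeff j0 ≠ 0 := Polynomial.mem_support_iff.1 hj0
  have hle : ∀ j, ‖(χ.coeff j0)⁻¹ * χ.coeff j‖ ≤ 1 := by
    intro j
    by_cases hj : j ∈ χ.support
    · rw [norm_mul, norm_inv, inv_mul_le_iff₀ (norm_pos_iff.2 hc0), mul_one]
      exact hmax j hj
    · rw [Polynomial.notMem_support_iff.1 hj, mul_zero, norm_zero]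
      exact zero_le_one
  have hco : ∀ j, (rd (C (χ.coeff j0)⁻¹ * χ)).coeff j = res ((χ.coeff j0)⁻¹ * χ.coeff j) := by
    intro j
    rw [coeff_rd, Polynomial.coeff_C_mul]
  refine ⟨rd (C (χ.coeff j0)⁻¹ * χ), ⟨?_, (χ.coeff j0)⁻¹, inv_ne_zero hc0, fun j => ⟨hle j, (hco j).symm⟩⟩, ?_⟩
  · intro h0
    have h1 := hco j0
    rw [h0, Polynomial.coeff_zero, inv_mul_cancel₀ hc0, res_one] at h1
    exact zero_ne_one h1
  · rw [Polynomial.natDegree_le_iff_coeff_eq_zero]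
    intro N hN
    rw [hco, Polynomial.coeff_eq_zero_of_natDegree_lt hN, mul_zero, res_zero]

theorem rdu_norm_le {χ : Polynomial ℂ_[p]} {φ : Polynomial (RF p)} (hφ : φ ≠ 0) {r r' : ℂ_[p]}
    (hr : ∀ j, ‖r * χ.coeff j‖ ≤ 1 ∧ res (r * χ.coeff j) = φ.coeff j)
    (hr' : ∀ j, ‖r' * χ.coeff j‖ ≤ 1) : ‖r'‖ ≤ ‖r‖ := by
  obtain ⟨j, hj⟩ : ∃ j, φ.coeff j ≠ 0 := by
    by_contra hcon
    push Not at hcon
    exact hφ (Polynomial.ext fun j => by rw [hcon j, Polynomial.coeff_zero])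
  have h1 : ‖r * χ.coeff j‖ = 1 := (norm_eq_one_iff (hr j).1).2 (by rw [(hr j).2]; exact hj)
  have h2 := hr' j
  rw [norm_mul] at h1 h2
  have h3 : 0 < ‖χ.coeff j‖ := by
    rcases (norm_nonneg (χ.coeff j)).eq_or_lt with h | h
    · rw [← h, mul_zero] at h1
      exact absurd h1 zero_ne_one
    · exact h
  by_contra hlt
  rw [not_le] at hlt
  have : ‖r‖ * ‖χ.coeff j‖ < ‖r'‖ * ‖χ.coeff j‖ := mul_lt_mul_of_pos_right hlt h3
  linarith

theorem rdu_unique (χ : Polynomial ℂ_[p]) (φ φ' : Polynomial (RF p)) (h : Red χ φ)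
    (h' : Red χ φ') : ∃ s : RF p, s ≠ 0 ∧ φ' = C s * φ := by
  obtain ⟨h0, r, hr0, hr⟩ := h
  obtain ⟨h0', r', hr0', hr'⟩ := h'
  have hn : ‖r'‖ = ‖r‖ :=
    le_antisymm (rdu_norm_le h0 hr fun j => (hr' j).1) (rdu_norm_le h0' hr' fun j => (hr j).1)
  have ht : ‖r' / r‖ = 1 := by
    rw [norm_div, hn, div_self (norm_ne_zero_iff.2 hr0)]
  refine ⟨res (r' / r), (norm_eq_one_iff ht.le).1 ht, ?_⟩
  ext j
  rw [Polynomial.coeff_C_mul, ← (hr j).2, ← (hr' j).2, ← res_mul ht.le (hr j).1]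
  congr 1
  field_simp

theorem rdu_smul (χ : Polynomial ℂ_[p]) (φ : Polynomial (RF p)) (s : RF p) (hs : s ≠ 0)
    (h : Red χ φ) : Red χ (C s * φ) := by
  obtain ⟨h0, r, hr0, hr⟩ := h
  obtain ⟨t, ht, rfl⟩ := res_surj s
  have ht1 : ‖t‖ = 1 := (norm_eq_one_iff ht).2 hs
  have ht0 : t ≠ 0 := by
    intro h
    rw [h, norm_zero] at ht1
    exact zero_ne_one ht1
  refine ⟨mul_ne_zero (by rwa [Ne, Polynomial.C_eq_zero]) h0, t * r, mul_ne_zero ht0 hr0, ?_⟩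
  intro j
  rw [mul_assoc, Polynomial.coeff_C_mul]
  refine ⟨?_, ?_⟩
  · rw [norm_mul, ht1, one_mul]
    exact (hr j).1
  · rw [res_mul ht (hr j).1, (hr j).2]

theorem rdu_C_mul (χ : Polynomial ℂ_[p]) (φ : Polynomial (RF p)) (r : ℂ_[p]) (hr : r ≠ 0)
    (h : Red χ φ) : Red (C r * χ) φ := by
  obtain ⟨h0, r₀, hr0, hr₀⟩ := h
  refine ⟨h0, r₀ / r, div_ne_zero hr0 hr, ?_⟩
  intro j
  have e : r₀ / r * (C r * χ).coeff j = r₀ * χ.coeff j := by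
    rw [Polynomial.coeff_C_mul]
    field_simp
  rw [e]
  exact hr₀ j

theorem rdu_value (χ : Polynomial ℂ_[p]) (φ : Polynomial (RF p)) (x y : ℂ_[p]) (h : Red χ φ)
    (hx : ‖x‖ ≤ 1) (hy : ‖y‖ ≤ 1) (hφ : φ.eval (res x) ≠ 0) :
    χ.eval x ≠ 0 ∧ ‖χ.eval y‖ ≤ ‖χ.eval x‖ ∧
      res (χ.eval y / χ.eval x) = φ.eval (res y) / φ.eval (res x) := by
  obtain ⟨h0, r, hr0, hr⟩ := h
  have hc : ∀ j, (C r * χ).coeff j = r * χ.coeff j := fun j => Polynomial.coeff_C_mul _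
  have hP : ∀ j, ‖(C r * χ).coeff j‖ ≤ 1 := fun j => by rw [hc]; exact (hr j).1
  have hP' : ∀ j, res ((C r * χ).coeff j) = φ.coeff j := fun j => by rw [hc]; exact (hr j).2
  obtain ⟨x1, x2⟩ := rdu_eval _ φ hP hP' x hx
  obtain ⟨y1, y2⟩ := rdu_eval _ φ hP hP' y hy
  have ex : (C r * χ).eval x = r * χ.eval x := by simp
  have ey : (C r * χ).eval y = r * χ.eval y := by simp
  rw [ex] at x1 x2
  rw [ey] at y1 y2
  have hx1 : ‖r * χ.eval x‖ = 1 := (norm_eq_one_iff x1).2 (by rw [x2]; exact hφ)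
  have hne : χ.eval x ≠ 0 := by
    intro h
    rw [h, mul_zero, norm_zero] at hx1
    exact zero_ne_one hx1
  refine ⟨hne, ?_, ?_⟩
  · have h1 : ‖r * χ.eval y‖ ≤ ‖r * χ.eval x‖ := by rw [hx1]; exact y1
    rw [norm_mul, norm_mul] at h1
    exact le_of_mul_le_mul_left h1 (norm_pos_iff.2 hr0)
  · have h2 := (rdu_res_div hx1 y1).2
    rw [x2, y2] at h2
    rw [← h2]
    congr 1
    field_simp

end

theorem st_RDU : ST_RDU := by
  intro p _ χ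
  exact ⟨rdu_exists χ, rdu_unique χ, fun φ s => rdu_smul χ φ s, fun φ r => rdu_C_mul χ φ r,
    fun φ x y => rdu_value χ φ x y⟩

end Pool.Agent.Helper60.FF
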